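import Pool.Agent.Q119.DM.Graph

set_option autoImplicit false

open Filter SimpleGraph

namespace Pool.Agent.Results.MP_7de56e_co.LimitOne

open Classical in
/-- The degree of the vertex `v` of the finite graph `G` (Mathlib's degree). -/
noncomputable def deg {V : Type*} [Fintype V] (G : SimpleGraph V) (v : V) : ℕ := G.degree v

/-- `G` contains a degree-monotone path of order `m`: distinct vertices `p 0, …, p (m - 1)`,
consecutive ones adjacent in `G` and of non-decreasing degree in `G`. -/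
def HasDMPath {V : Type*} [Fintype V] (G : SimpleGraph V) (m : ℕ) : Prop :=
  ∃ p : Fin m → V, Function.Injective p ∧
    ∀ i j : Fin m, (i : ℕ) + 1 = j → G.Adj (p i) (p j) ∧ deg G (p i) ≤ deg G (p j)

/-- Every edge colouring of `K_n` with `k` colours has a colour class (a spanning subgraph, in
which the degrees are taken) that contains a degree-monotone path of order `m`. -/
def Forces (k m n : ℕ) : Prop :=
  ∀ c : TopEdgeLabeling (Fin n) (Fin k), ∃ j, HasDMPath (c.labelGraph j) m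

/-- `M k m` is the least `N` such that `Forces k m n` for every `n ≥ N`. -/
noncomputable def M (k m : ℕ) : ℕ := sInf {N | ∀ n ≥ N, Forces k m n}

lemma deg_eq {V : Type*} [Fintype V] (G : SimpleGraph V) [DecidableRel G.Adj] (v : V) :
    deg G v = G.degree v := by
  unfold deg
  rw [← card_neighborSet_eq_degree, ← card_neighborSet_eq_degree]
  simp only [Fintype.card_eq_nat_card]

lemma hasDMPath_of_bad {V : Type*} [Fintype V] (G : SimpleGraph V) [DecidableRel G.Adj]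
    {x y z : V} (hxz : x ≠ z) (h : Q119.DM.Bad G x y z) : HasDMPath G 3 := by
  classical
  obtain ⟨h1, h2, h3, h4⟩ := h
  rw [← deg_eq, ← deg_eq] at h3 h4
  refine ⟨![x, y, z], ?_, ?_⟩
  · intro a b hab
    fin_cases a <;> fin_cases b <;> simp at hab ⊢
    · exact h1.ne hab
    · exact hxz hab
    · exact h1.ne hab.symm
    · exact h2.ne hab
    · exact hxz hab.symm
    · exact h2.ne hab.symm
  · intro a b hab
    fin_cases a <;> fin_cases b <;> simp at hab ⊢
    · exact ⟨h1, h3⟩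
    · exact ⟨h2, h4⟩

lemma forces_of_large {k n : ℕ} (h : 2 ^ k < n) : Forces k 3 n := by
  classical
  intro c
  by_contra hcon
  push Not at hcon
  have := Q119.DM.upper c (fun j x y z hxz hbad => hcon j (hasDMPath_of_bad _ hxz hbad))
  omega

lemma not_forces {k n : ℕ} (c : TopEdgeLabeling (Fin n) (Fin k))
    (hc : ∀ j x y z, ¬ Q119.DM.Bad (c.labelGraph j) x y z) : ¬ Forces k 3 n := by
  classical
  intro h
  obtain ⟨j, p, _, hp⟩ := h c
  apply hc j (p 0) (p 1) (p 2)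
  obtain ⟨h1, h2⟩ := hp 0 1 rfl
  obtain ⟨h3, h4⟩ := hp 1 2 rfl
  rw [deg_eq, deg_eq] at h2 h4
  exact ⟨h1, h3, h2, h4⟩

theorem nonempty (k : ℕ) : {N | ∀ n ≥ N, Forces k 3 n}.Nonempty :=
  ⟨2 ^ k + 1, fun _ hn => forces_of_large hn⟩

theorem M_le (k : ℕ) : M k 3 ≤ 2 ^ k + 1 :=
  Nat.sInf_le fun _ hn => forces_of_large hn

theorem lt_M {k n : ℕ} (h : ¬ Forces k 3 n) : n < M k 3 := by
  by_contra hle
  push Not at hle
  exact h (Nat.sInf_mem (nonempty k) n hle)

theorem le_M (k : ℕ) (hk : 1 ≤ k / 3) (hk2 : 64 * k ≤ 2 ^ (k / 3)) :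
    (2 : ℝ) ^ k - 3 * 2 ^ (k - k / 3) ≤ M k 3 := by
  obtain ⟨a, r, hr, rfl⟩ : ∃ a r, r ≤ 2 ∧ k = 3 * a + r :=
    ⟨k / 3, k % 3, by omega, by omega⟩
  have ha : (3 * a + r) / 3 = a := by omega
  rw [ha] at hk hk2 ⊢
  obtain ⟨c, hc⟩ := Q119.DM.exists_good a r hr hk hk2
  have h1 := lt_M (not_forces c hc)
  have h2 : (((2 ^ a - 1) * (2 ^ a - 1) * (2 ^ (a + r) - 1) : ℕ) : ℝ) ≤ M (3 * a + r) 3 := by
    exact_mod_cast h1.le
  refine le_trans ?_ h2
  have e1 : ((2 ^ a - 1 : ℕ) : ℝ) = 2 ^ a - 1 := by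
    rw [Nat.cast_sub Nat.one_le_two_pow]
    norm_num
  have e2 : ((2 ^ (a + r) - 1 : ℕ) : ℝ) = 2 ^ (a + r) - 1 := by
    rw [Nat.cast_sub Nat.one_le_two_pow]
    norm_num
  rw [Nat.cast_mul, Nat.cast_mul, e1, e2]
  have e3 : 3 * a + r - a = a + (a + r) := by omega
  have e4 : 3 * a + r = a + a + (a + r) := by ring
  rw [e3, e4, pow_add, pow_add, pow_add 2 a (a + r)]
  have hx : (1 : ℝ) ≤ 2 ^ a := one_le_pow₀ (by norm_num)
  have hy : (2 : ℝ) ^ a ≤ 2 ^ (a + r) := pow_le_pow_right₀ (by norm_num) (by omega)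
  set x : ℝ := 2 ^ a
  set y : ℝ := 2 ^ (a + r)
  nlinarith [mul_nonneg (sub_nonneg.2 hx) (sub_nonneg.2 hy), mul_nonneg (sub_nonneg.2 hx) (sub_nonneg.2 hx)]

/-- Main result: `M_k(3) / 2 ^ k → 1`. (The sets defining `M_k(3)` are nonempty, and explicitly
`2 ^ k - 3 * 2 ^ (k - ⌊k / 3⌋) ≤ M_k(3) ≤ 2 ^ k + 1` as soon as `64 k ≤ 2 ^ ⌊k / 3⌋`.) -/
theorem result :
    (∀ k, {N | ∀ n ≥ N, Forces k 3 n}.Nonempty) ∧
    (∀ k, 1 ≤ k → 64 * k ≤ 2 ^ (k / 3) →
      (2 : ℝ) ^ k - 3 * 2 ^ (k - k / 3) ≤ M k 3 ∧ (M k 3 : ℝ) ≤ 2 ^ k + 1) ∧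
    Tendsto (fun k : ℕ => (M k 3 : ℝ) / 2 ^ k) atTop (nhds 1) := by
  have hup : ∀ k, (M k 3 : ℝ) ≤ 2 ^ k + 1 := by
    intro k
    exact_mod_cast M_le k
  have hbig : ∀ k, 1 ≤ k → 64 * k ≤ 2 ^ (k / 3) → 1 ≤ k / 3 := by
    intro k hk h
    by_contra h0
    have h0' : k / 3 = 0 := by omega
    rw [h0'] at h
    omega
  refine ⟨nonempty, fun k hk h => ⟨le_M k (hbig k hk h) h, hup k⟩, ?_⟩
  have hdiv : Tendsto (fun k : ℕ => k / 3) atTop atTop :=
    Nat.tendsto_div_const_atTop (by norm_num)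
  have hl : Tendsto (fun k : ℕ => 1 - 3 * ((1 / 2 : ℝ)) ^ (k / 3)) atTop (nhds 1) := by
    have h1 : Tendsto (fun n : ℕ => ((1 / 2 : ℝ)) ^ n) atTop (nhds 0) :=
      tendsto_pow_atTop_nhds_zero_of_lt_one (by norm_num) (by norm_num)
    have h2 := ((h1.comp hdiv).const_mul 3).const_sub 1
    simpa using h2
  have hu : Tendsto (fun k : ℕ => 1 + ((1 / 2 : ℝ)) ^ k) atTop (nhds 1) := by
    have h1 : Tendsto (fun n : ℕ => ((1 / 2 : ℝ)) ^ n) atTop (nhds 0) :=
      tendsto_pow_atTop_nhds_zero_of_lt_one (by norm_num) (by norm_num)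
    simpa using h1.const_add 1
  have hev : ∀ᶠ k : ℕ in atTop, 64 * k ≤ 2 ^ (k / 3) := by
    -- `64 (3 a + 2) ≤ 2 ^ a` for `a ≥ 12`
    have hgen : ∀ a : ℕ, 12 ≤ a → 64 * (3 * a + 2) ≤ 2 ^ a := by
      intro a ha
      induction a, ha using Nat.le_induction with
      | base => norm_num
      | succ a ha ih =>
        rw [pow_succ]
        omega
    filter_upwards [eventually_ge_atTop 36] with k hk
    have h1 := hgen (k / 3) (by omega)
    have h2 : k ≤ 3 * (k / 3) + 2 := by omega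
    exact (Nat.mul_le_mul_left 64 h2).trans h1
  apply tendsto_of_tendsto_of_tendsto_of_le_of_le' hl hu
  · filter_upwards [hev, eventually_ge_atTop 1] with k hk hk1
    have h1 := le_M k (hbig k hk1 hk) hk
    have hpos : (0 : ℝ) < 2 ^ k := by positivity
    rw [le_div_iff₀ hpos]
    refine le_trans (le_of_eq ?_) h1
    have h2 : (2 : ℝ) ^ k = 2 ^ (k - k / 3) * 2 ^ (k / 3) := by
      rw [← pow_add]
      congr 1
      omega
    rw [sub_mul, one_mul, one_div, inv_pow, mul_assoc]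
    congr 1
    rw [h2]
    field_simp
  · filter_upwards with k
    have hpos : (0 : ℝ) < 2 ^ k := by positivity
    rw [div_le_iff₀ hpos]
    refine (hup k).trans (le_of_eq ?_)
    rw [add_mul, one_mul, one_div, inv_pow]
    field_simp

end Pool.Agent.Results.MP_7de56e_co.LimitOne
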